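import Pool.Agent.W792.WA.Stm6

/-!
WA6-KC: product kernel in dimension `d`, uniformly in `t`.
-/

set_option autoImplicit false

namespace Pool.Agent.W988.WA.KC

open MeasureTheory Filter
open Pool.Agent.W792.WA Pool.Agent.W792.LL
open scoped Topology

theorem k1_le_one (t : ℝ) (n : ℤ) : ‖k1 t n‖ ≤ 1 := by
  unfold k1
  refine (norm_integral_le_of_norm_le_const (C := 1)
    (Eventually.of_forall fun θ => ?_)).trans ?_
  · rw [norm_mul, fourier_apply, Circle.norm_coe, one_mul]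
    have : Complex.I * (t : ℂ) * ((2 - 2 * (fourier 1 θ).re : ℝ) : ℂ) =
        ((t * (2 - 2 * (fourier 1 θ).re) : ℝ) : ℂ) * Complex.I := by
      push_cast
      ring
    rw [this, Complex.norm_exp_ofReal_mul_I]
  · simp

theorem prodform (d : ℕ) (t : ℝ) (x : Fin d → ℤ) :
    UnitAddTorus.mFourierCoeff (fun k : UnitAddTorus (Fin d) =>
      Complex.exp (Complex.I * t * lap d k)) x = ∏ i : Fin d, k1 t (-x i) := by
  unfold k1
  rw [← integral_fintype_prod_eq_prod (μ := fun _ : Fin d => AddCircle.haarAddCircle)]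
  unfold UnitAddTorus.mFourierCoeff
  refine integral_congr_ae (Filter.Eventually.of_forall fun k => ?_)
  change (∏ i : Fin d, fourier ((-x) i) (k i)) * Complex.exp (Complex.I * t *
    ((∑ i, (2 - 2 * (fourier 1 (k i)).re) : ℝ) : ℂ)) =
    ∏ i : Fin d, (fourier (-x i) (k i) * Complex.exp (Complex.I * t *
      ((2 - 2 * (fourier 1 (k i)).re : ℝ) : ℂ)))
  rw [Finset.prod_mul_distrib, ← Complex.exp_sum, Complex.ofReal_sum, Finset.mul_sum]
  rfl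

theorem attained {d : ℕ} (hd : 0 < d) (x : Fin d → ℤ) :
    ∃ i, ((x i).natAbs : ℝ) = ‖x‖ := by
  have hne : (Finset.univ : Finset (Fin d)).Nonempty := ⟨⟨0, hd⟩, Finset.mem_univ _⟩
  obtain ⟨i, _, hi⟩ := Finset.exists_mem_eq_sup Finset.univ hne (fun b => ‖x b‖₊)
  refine ⟨i, ?_⟩
  rw [Pi.norm_def, hi, coe_nnnorm, Int.norm_eq_abs, Nat.cast_natAbs, Int.cast_abs]

theorem bdd (d : ℕ) : ∃ K : ℝ, 0 < K ∧ ∀ m : ℕ, (4 / 5 : ℝ) ^ m ≤
    K / (1 + (m : ℝ)) ^ ((d : ℝ) / 3) := by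
  have ht := tendsto_pow_const_mul_const_pow_of_abs_lt_one d
    (r := (4 / 5 : ℝ)) (by rw [abs_of_pos] <;> norm_num)
  obtain ⟨K, hK⟩ := ht.bddAbove_range
  have hK' : ∀ n : ℕ, (n : ℝ) ^ d * (4 / 5) ^ n ≤ K := fun n => hK ⟨n, rfl⟩
  refine ⟨|K| * (5 / 4) + 1, by positivity, fun m => ?_⟩
  have hm : (1 : ℝ) ≤ 1 + m := by
    have : (0 : ℝ) ≤ m := Nat.cast_nonneg m
    linarith
  have h0 : (0 : ℝ) < 1 + m := by linarith
  rw [le_div_iff₀ (Real.rpow_pos_of_pos h0 _)]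
  have h1 : (1 + (m : ℝ)) ^ ((d : ℝ) / 3) ≤ (1 + (m : ℝ)) ^ d := by
    rw [← Real.rpow_natCast]
    apply Real.rpow_le_rpow_of_exponent_le hm
    have : (0 : ℝ) ≤ d := Nat.cast_nonneg d
    linarith
  have h2 := hK' (m + 1)
  rw [pow_succ (4 / 5 : ℝ) m] at h2
  push_cast at h2
  have h3 : (4 / 5 : ℝ) ^ m * (1 + (m : ℝ)) ^ d ≤ K * (5 / 4) := by
    have : (4 / 5 : ℝ) ^ m * (1 + (m : ℝ)) ^ d = ((m : ℝ) + 1) ^ d * ((4 / 5) ^ m * (4 / 5)) *
        (5 / 4) := by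
      rw [add_comm 1 (m : ℝ)]; ring
    rw [this]
    exact mul_le_mul_of_nonneg_right h2 (by norm_num)
  have h4 := le_abs_self K
  calc (4 / 5 : ℝ) ^ m * (1 + (m : ℝ)) ^ ((d : ℝ) / 3)
      ≤ (4 / 5 : ℝ) ^ m * (1 + (m : ℝ)) ^ d := mul_le_mul_of_nonneg_left h1 (by positivity)
    _ ≤ K * (5 / 4) := h3
    _ ≤ |K| * (5 / 4) + 1 := by linarith

theorem main : S_KA → S_KB → S_KC := by
  rintro ⟨C1, hC1, hA⟩ ⟨C2, hC2, hB⟩ d hd
  obtain ⟨K, hK, hbd⟩ := bdd d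
  refine ⟨(2 * C1) ^ d + C2 * K, by positivity, fun t x => ?_⟩
  rw [prodform, norm_prod]
  have hr : 0 ≤ ‖x‖ := norm_nonneg x
  have h0 : 0 < 1 + ‖x‖ := by linarith
  have hp : 0 < (1 + ‖x‖) ^ ((d : ℝ) / 3) := Real.rpow_pos_of_pos h0 _
  by_cases hc : ‖x‖ ≤ 8 * |t|
  · have h1 : ∀ i, ‖k1 t (-x i)‖ ≤ 2 * C1 / (1 + ‖x‖) ^ (1 / 3 : ℝ) := by
      intro i
      refine (hA t (-x i)).trans ?_
      have ht : 0 < 1 + |t| := by positivity
      have e1 : (1 + ‖x‖) ^ (1 / 3 : ℝ) ≤ 2 * (1 + |t|) ^ (1 / 3 : ℝ) := by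
        calc (1 + ‖x‖) ^ (1 / 3 : ℝ) ≤ (8 * (1 + |t|)) ^ (1 / 3 : ℝ) := by
              apply Real.rpow_le_rpow h0.le _ (by norm_num)
              linarith
          _ = (8 : ℝ) ^ (1 / 3 : ℝ) * (1 + |t|) ^ (1 / 3 : ℝ) :=
              Real.mul_rpow (by norm_num) ht.le
          _ = 2 * (1 + |t|) ^ (1 / 3 : ℝ) := by
              congr 1
              rw [show (8 : ℝ) = 2 ^ (3 : ℝ) by norm_num, ← Real.rpow_mul (by norm_num)]
              norm_num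
      have hx3 : 0 < (1 + ‖x‖) ^ (1 / 3 : ℝ) := Real.rpow_pos_of_pos h0 _
      have ht3 : 0 < (1 + |t|) ^ (1 / 3 : ℝ) := Real.rpow_pos_of_pos ht _
      rw [div_le_div_iff₀ ht3 hx3]
      calc C1 * (1 + ‖x‖) ^ (1 / 3 : ℝ) ≤ C1 * (2 * (1 + |t|) ^ (1 / 3 : ℝ)) :=
            mul_le_mul_of_nonneg_left e1 hC1.le
        _ = 2 * C1 * (1 + |t|) ^ (1 / 3 : ℝ) := by ring
    calc ∏ i : Fin d, ‖k1 t (-x i)‖
        ≤ ∏ _i : Fin d, 2 * C1 / (1 + ‖x‖) ^ (1 / 3 : ℝ) :=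
          Finset.prod_le_prod (fun _ _ => norm_nonneg _) fun i _ => h1 i
      _ = (2 * C1) ^ d / (1 + ‖x‖) ^ ((d : ℝ) / 3) := by
          rw [Finset.prod_const, Finset.card_univ, Fintype.card_fin, div_pow,
            ← Real.rpow_mul_natCast h0.le]
          congr 2
          ring
      _ ≤ ((2 * C1) ^ d + C2 * K) / (1 + ‖x‖) ^ ((d : ℝ) / 3) := by
          apply div_le_div_of_nonneg_right _ hp.le
          have : 0 < C2 * K := by positivity
          linarith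
  · push Not at hc
    obtain ⟨i, hi⟩ := attained hd x
    have h1 : ‖k1 t (-x i)‖ ≤ C2 * (4 / 5) ^ (x i).natAbs := by
      have := hB t (-x i) (by
        rw [Int.cast_neg, abs_neg, ← Int.cast_abs, ← Nat.cast_natAbs, hi]
        exact hc.le)
      rwa [Int.natAbs_neg] at this
    have h2 := hbd (x i).natAbs
    rw [hi] at h2
    calc ∏ j : Fin d, ‖k1 t (-x j)‖
        = ‖k1 t (-x i)‖ * ∏ j ∈ Finset.univ.erase i, ‖k1 t (-x j)‖ :=
          (Finset.mul_prod_erase _ _ (Finset.mem_univ i)).symm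
      _ ≤ ‖k1 t (-x i)‖ * 1 := by
          apply mul_le_mul_of_nonneg_left _ (norm_nonneg _)
          exact Finset.prod_le_one (fun _ _ => norm_nonneg _) fun j _ => k1_le_one t _
      _ ≤ C2 * (K / (1 + ‖x‖) ^ ((d : ℝ) / 3)) := by
          rw [mul_one]
          exact h1.trans (mul_le_mul_of_nonneg_left h2 hC2.le)
      _ = C2 * K / (1 + ‖x‖) ^ ((d : ℝ) / 3) := by ring
      _ ≤ ((2 * C1) ^ d + C2 * K) / (1 + ‖x‖) ^ ((d : ℝ) / 3) := by
          apply div_le_div_of_nonneg_right _ hp.le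
          have : 0 < (2 * C1) ^ d := by positivity
          linarith

end Pool.Agent.W988.WA.KC
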